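import Pool.Agent.Lib.ALLX_h54.RatZero
import Pool.Agent.Lib.ALLX.R10
import Pool.Agent.Lib.TA.Main

/-!
# PROJECT ALL, row R12: block X for `D = 0` (Abhyankar valuations)

`Q = Q' = 1`: the rings are valuation rings. The only content is the bound of the local degree
(toric Albanese).
-/

set_option autoImplicit false

namespace Pool.Agent.ALL

open Pool.Agent.H15JM (RVal)
open Pool.Agent.LU1 (VPos locv FracIs fixO decG)
open Pool.Agent.TA

universe u

variable {k Ω : Type u} [Field k] [Field Ω] [Algebra k Ω] {v : RVal Ω} {n r : ℕ}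

/-- Block X for `D = 0`. -/
theorem xd_zero [IsAlgClosed k] [IsAlgClosed Ω] (h : CtxR k v n r) (hr : 0 < r) (hn : n = r + 0)
    {p : ℕ} (hp : 2 ^ n * n.factorial < p) (E : IntermediateField k Ω)
    (halg : ∀ g : Ω, IsAlgebraic E g) (Z : Finset Ω) (hZ : ∀ z ∈ Z, z ≠ 0)
    (hadj : IntermediateField.adjoin k (Z : Set Ω) = E) :
    ∃ (F : FR k v 0) (K : IntermediateField k Ω) (N : IntermediateField K Ω)
      (_ : FiniteDimensional K N) (_ : IsGalois K N) (H : Subgroup (N ≃ₐ[K] N)) (Q Q' : Ω),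
      XD v p E Z F K N H Q Q' := by
  classical
  have hZE : ∀ z ∈ Z, z ∈ E := fun z hz => by
    rw [← hadj]; exact IntermediateField.subset_adjoin k _ hz
  obtain ⟨x, y, hx, hxi, hy, hai, hlat, hF⟩ := toric_albanese_z h hn E ⟨Z, hadj.symm⟩ halg Z
    fun z hz => ⟨hZE z hz, hZ z hz⟩
  set K : IntermediateField k Ω := IntermediateField.adjoin k (Set.range x ∪ Set.range y) with hK
  obtain ⟨hsep, hN⟩ := hF K hK
  have hKE : K ≤ E := by
    rw [hK, IntermediateField.adjoin_le_iff]
    rintro _ (⟨i, rfl⟩ | ⟨j, rfl⟩)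
    · exact (hx i).1
    · exact (hy j).1
  have halgK : ∀ g : Ω, IsAlgebraic K g := by
    intro g
    have h1 : Algebra.IsAlgebraic K (IntermediateField.extendScalars hKE) := by
      constructor
      rintro ⟨z, hz⟩
      have := (hsep z hz).isIntegral.isAlgebraic
      exact (isAlgebraic_algHom_iff (IntermediateField.extendScalars hKE).val
        Subtype.val_injective).1 this
    have h2 : IsAlgebraic (IntermediateField.extendScalars hKE) g := halg g
    exact h2.restrictScalars K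
  obtain ⟨F, hFO, hrat, hfrac⟩ := exists_FROf h hr x (fun i => (hx i).2.1) hxi y
    (fun j => (hy j).2) halgK
  obtain ⟨N, hN1, hN2, hZN⟩ := LU1.exists_galois_closure K halgK Z fun g hg => hsep g (hZE g hg)
  have hEN : ∀ g ∈ E, g ∈ N := by
    have h1 : E ≤ N.restrictScalars k := by
      rw [← hadj, IntermediateField.adjoin_le_iff]
      exact fun g hg => hZN g hg
    exact fun g hg => h1 hg
  obtain ⟨H, hH⟩ := LU1.exists_fixO_eq K N E hKE hEN
  have hval : ∀ f ∈ K, v.Ge 0 f → f ∈ F.R := fun f hf h0 =>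
    hrat.mem_of_nonneg h.triv hfrac hf h0
  -- elements of value `≥ 0` are in the ring
  have hE : ∀ f ∈ E, v.Ge 0 f → f ∈ ICl v F.R E := fun f hf h0 =>
    mem_ICl_of_nonneg hval hKE hf (halgK f) h0
  have hχE : ∀ γ ∈ F.Γ, F.χ γ ∈ E := by
    intro γ hγ
    rcases le_total 0 γ with h1 | h1
    · exact hKE (hfrac.1 _ (F.χ_mem _ hγ h1))
    · have h2 := hKE (hfrac.1 _ (F.χ_mem _ (F.Γ.neg_mem hγ) (neg_nonneg.2 h1)))
      rw [F.chi_neg hγ] at h2
      have := inv_mem h2
      rwa [inv_inv] at this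
  have hmono : ∀ f ∈ E, f ≠ 0 → v f ∈ F.Γ → F.MonoIn (ICl v F.R E) f := by
    intro f hf hf0 hvf
    refine ⟨hf0, hvf, hE _ (div_mem hf (hχE _ hvf)) fun _ => ?_⟩
    rw [v.map_div hf0 (F.χ_ne _ hvf), F.χ_val _ hvf, sub_self]
  -- values can be made non-negative
  obtain ⟨γ₁, hγ₁, hγ₁pos⟩ : ∃ γ ∈ F.Γ, 0 < γ := by
    have h1 : v (mx x (Pi.single ⟨0, hr⟩ 1)) = v (x ⟨0, hr⟩) := by
      rw [v_mx fun i => (hx i).2.1, Finset.sum_eq_single ⟨0, hr⟩]
      · simp
      · intro i _ hi
        rw [Pi.single_eq_of_ne hi]; simp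
      · intro hh; exact absurd (Finset.mem_univ _) hh
    exact ⟨_, (hFO.Γ_iff _).2 ⟨_, rfl⟩, by rw [h1]; exact (hx _).2.2⟩
  have hshift : ∀ f ∈ E, ∃ γ ∈ F.Γ, F.χ γ * f ∈ ICl v F.R E := by
    intro f hf
    by_cases hf0 : f = 0
    · exact ⟨0, F.Γ.zero_mem, by rw [hf0, mul_zero]; exact (ICl v F.R E).zero_mem⟩
    obtain ⟨N', hN'⟩ := exists_nat_gt (-(v f) / γ₁)
    rw [div_lt_iff₀ hγ₁pos] at hN'
    have h1 : (N' : ℝ) * γ₁ ∈ F.Γ := by
      rw [← nsmul_eq_mul]; exact F.Γ.nsmul_mem hγ₁ _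
    refine ⟨_, h1, hE _ (mul_mem (hχE _ h1) hf) fun _ => ?_⟩
    rw [v.map_mul (F.χ_ne _ h1) hf0, F.χ_val _ h1]
    linarith
  refine ⟨F, K, N, hN1, hN2, H, 1, 1, ?_⟩
  exact
    { rat := hrat
      frac := hfrac
      le := hKE
      fix := hH
      idx := by
        refine lt_of_le_of_lt ?_ hp
        refine le_trans ?_ (hN N H hH)
        refine Subgroup.relIndex_le_of_le_right (decP_le_decG hfrac hval N) ?_
        exact (Subgroup.index_ne_zero_of_finite : (H.subgroupOf (decG v K N)).index ≠ 0)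
      mono := fun z hz => by
        refine hmono z (hZE z hz) (hZ z hz) ?_
        obtain ⟨l, hl⟩ := hlat z hz
        exact (hFO.Γ_iff _).2 ⟨l, by rw [hl, v_mx fun i => (hx i).2.1]⟩
      den := by
        intro f hf
        obtain ⟨a, ha, b, hb, hb0, hvb, hfab⟩ := LU1.mem_locv.1 hf
        have hfE : f ∈ E := by
          rw [hfab]; exact div_mem ha.1 hb.1
        rw [← hadj, IntermediateField.mem_adjoin_iff_div] at hfE
        obtain ⟨c, hc, d, hd, hcd⟩ := hfE
        by_cases hd0 : d = 0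
        · refine ⟨0, zero_mem _, 1, one_mem _, ?_, by rw [hcd, hd0, div_zero, zero_div]⟩
          exact hmono 1 E.one_mem one_ne_zero (by rw [v.map_one]; exact F.Γ.zero_mem)
        have hdE : d ∈ E := by
          rw [← hadj]
          exact IntermediateField.algebra_adjoin_le_adjoin k _ hd
        obtain ⟨m, hm, hmΓ⟩ := F.full d hd0
        refine ⟨c * d ^ (m - 1), mul_mem hc (pow_mem hd _), d ^ m, pow_mem hd _, ?_, ?_⟩
        · refine hmono _ (pow_mem hdE _) (pow_ne_zero _ hd0) ?_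
          rw [v.map_pow hd0]
          exact hmΓ
        · obtain ⟨m', rfl⟩ : ∃ m', m = m' + 1 := ⟨m - 1, by omega⟩
          rw [hcd, Nat.add_sub_cancel, pow_succ]
          field_simp
      Q_mem := E.one_mem
      Q_ne := one_ne_zero
      Q_int := hshift 1 E.one_mem
      der := fun d _ f _ => by
        rw [one_mul]
        exact hshift _ (d f).2
      Q'_mem := N.one_mem
      Q'_ne := one_ne_zero
      Q'_int := ⟨0, F.Γ.zero_mem, by
        rw [F.chi_zero, one_mul]
        exact (ICl v F.R (N.restrictScalars k)).one_mem⟩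
      ord := by
        refine ⟨F, ⟨rfl, fun _ _ => rfl, rfl, le_rfl⟩, ?_, 0, 0, lt_of_le_of_lt (Nat.zero_le _) hp,
          F.Γ.zero_mem, 1, MvPolynomial.isHomogeneous_one _ _, one_ne_zero, 0, zero_mem _, γ₁, hγ₁,
          hγ₁pos, 0, zero_mem _, ?_⟩
        · intro f hf
          refine LU1.le_locv _ ⟨?_, ?_⟩
          · exact N.algebraMap_mem ⟨f, hfrac.1 f hf⟩
          · have : f = algebraMap F.R Ω ⟨f, hf⟩ := rfl
            rw [this]
            exact isIntegral_algebraMap
        · rw [F.chi_zero, map_one]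
          ring }

end Pool.Agent.ALL
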