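import Pool.Agent.Lib.ALLX_h54.ValRing

/-!
# PROJECT ALL, row R12: the ring of a rational frame without free parameters is a valuation ring
-/

set_option autoImplicit false

open Polynomial

namespace Pool.Agent.ALL

open Pool.Agent.H15JM (RVal)
open Pool.Agent.LU1 (VPos locv FracIs fixO decG)

universe u

variable {k Ω : Type u} [Field k] [Field Ω] [Algebra k Ω] {v : RVal Ω} {D : ℕ}

namespace FR

variable (F : FR k v D)

theorem chi_zero : F.χ 0 = 1 := by
  have h := F.χ_add 0 F.Γ.zero_mem 0 F.Γ.zero_mem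
  rw [add_zero] at h
  exact (mul_right_cancel₀ (F.χ_ne 0 F.Γ.zero_mem) (by rw [one_mul, ← h])).symm

theorem chi_neg {γ : ℝ} (hγ : γ ∈ F.Γ) : F.χ (-γ) = (F.χ γ)⁻¹ := by
  have h := F.χ_add γ hγ (-γ) (F.Γ.neg_mem hγ)
  rw [add_neg_cancel, F.chi_zero] at h
  exact eq_inv_of_mul_eq_one_right h.symm

theorem chi_sub {γ δ : ℝ} (hγ : γ ∈ F.Γ) (hδ : δ ∈ F.Γ) : F.χ (γ - δ) = F.χ γ / F.χ δ := by
  rw [sub_eq_add_neg, F.χ_add γ hγ _ (F.Γ.neg_mem hδ), F.chi_neg hδ, div_eq_mul_inv]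

/-- The elements of `k[χ(Γ ≥ 0)]` are sums of monomials. -/
theorem mem_adjoin_chi {a : Ω} (ha : a ∈ Algebra.adjoin k (F.χ '' {γ | γ ∈ F.Γ ∧ 0 ≤ γ})) :
    ∃ (s : Finset ℝ) (c : ℝ → k), (∀ γ ∈ s, γ ∈ F.Γ ∧ 0 ≤ γ ∧ c γ ≠ 0) ∧
      a = ∑ γ ∈ s, algebraMap k Ω (c γ) * F.χ γ := by
  classical
  let M : Submonoid Ω :=
    { carrier := F.χ '' {γ | γ ∈ F.Γ ∧ 0 ≤ γ}
      mul_mem' := by
        rintro _ _ ⟨γ, hγ, rfl⟩ ⟨δ, hδ, rfl⟩
        exact ⟨γ + δ, ⟨F.Γ.add_mem hγ.1 hδ.1, add_nonneg hγ.2 hδ.2⟩, F.χ_add γ hγ.1 δ hδ.1⟩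
      one_mem' := ⟨0, ⟨F.Γ.zero_mem, le_rfl⟩, F.chi_zero⟩ }
  have hM : Submonoid.closure (F.χ '' {γ | γ ∈ F.Γ ∧ 0 ≤ γ}) = M := by
    refine le_antisymm (Submonoid.closure_le.2 (le_refl (M : Set Ω))) ?_
    intro x hx
    exact Submonoid.subset_closure hx
  have h1 : a ∈ Submodule.span k (F.χ '' {γ | γ ∈ F.Γ ∧ 0 ≤ γ}) := by
    have h2 : a ∈ Subalgebra.toSubmodule
        (Algebra.adjoin k (F.χ '' {γ | γ ∈ F.Γ ∧ 0 ≤ γ})) := ha
    rw [Algebra.adjoin_eq_span, hM] at h2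
    exact h2
  obtain ⟨l, hl, hla⟩ := (Finsupp.mem_span_image_iff_linearCombination k).1 h1
  refine ⟨l.support, l, fun γ hγ => ?_, ?_⟩
  · have := hl hγ
    exact ⟨this.1, this.2, Finsupp.mem_support_iff.1 hγ⟩
  · rw [← hla, Finsupp.linearCombination_apply, Finsupp.sum]
    exact Finset.sum_congr rfl fun γ _ => Algebra.smul_def _ _

end FR

/-- In a rational frame without free parameters every element `≠ 0` is a monomial times a unit. -/
theorem FR.Rat.mono_zero (hk : ∀ c : k, c ≠ 0 → v (algebraMap k Ω c) = 0) {F : FR k v 0}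
    (hF : F.Rat) {f : Ω} (hf : f ∈ F.R) (hf0 : f ≠ 0) :
    ∃ γ ∈ F.Γ, ∃ u ∈ F.R, u ≠ 0 ∧ v u = 0 ∧ f = F.χ γ * u := by
  classical
  have hset : (F.χ '' {γ | γ ∈ F.Γ ∧ 0 ≤ γ} ∪ Set.range F.y) =
      F.χ '' {γ | γ ∈ F.Γ ∧ 0 ≤ γ} := by
    rw [Set.range_eq_empty, Set.union_empty]
  have hR : F.R = locv v (Algebra.adjoin k (F.χ '' {γ | γ ∈ F.Γ ∧ 0 ≤ γ})) := by
    have := hF
    unfold FR.Rat at this
    rw [hset] at this
    exact this
  have hf' := hf
  rw [hR] at hf'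
  obtain ⟨a, ha, b, hb, hb0, hvb, hfab⟩ := LU1.mem_locv.1 hf'
  have ha0 : a ≠ 0 := by
    rintro rfl
    rw [zero_div] at hfab
    exact hf0 hfab
  obtain ⟨s, c, hs, hsa⟩ := F.mem_adjoin_chi ha
  have hne : s.Nonempty := by
    rw [Finset.nonempty_iff_ne_empty]
    rintro rfl
    rw [Finset.sum_empty] at hsa
    exact ha0 hsa
  obtain ⟨γ, hγ, hmin⟩ := Finset.exists_min_image s id hne
  have hγΓ := (hs γ hγ).1
  have hbR : b⁻¹ ∈ F.R := by
    refine F.loc b ?_ hb0 hvb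
    rw [hR]
    exact LU1.le_locv _ hb
  -- the bracket
  let w : Ω := ∑ δ ∈ s.erase γ, algebraMap k Ω (c δ) * F.χ (δ - γ)
  have hmem : ∀ δ ∈ s.erase γ, 0 < δ - γ ∧ δ - γ ∈ F.Γ := by
    intro δ hδ
    rw [Finset.mem_erase] at hδ
    have h1 := hmin δ hδ.2
    simp only [id] at h1
    exact ⟨sub_pos.2 (lt_of_le_of_ne h1 (Ne.symm hδ.1)), F.Γ.sub_mem (hs δ hδ.2).1 hγΓ⟩
  have hwR : w ∈ F.R := by
    refine sum_mem fun δ hδ => mul_mem (F.R.algebraMap_mem _) ?_
    exact F.χ_mem _ (hmem δ hδ).2 (hmem δ hδ).1.le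
  have hwpos : VPos v w := by
    have : ∀ t : Finset ℝ, t ⊆ s.erase γ →
        VPos v (∑ δ ∈ t, algebraMap k Ω (c δ) * F.χ (δ - γ)) := by
      intro t
      induction t using Finset.induction_on with
      | empty => intro _; exact LU1.VPos.zero
      | insert δ t hδ ih =>
        intro hsub
        rw [Finset.sum_insert hδ]
        refine LU1.VPos.add ?_ (ih fun x hx => hsub (Finset.mem_insert_of_mem hx))
        have hδ' := hsub (Finset.mem_insert_self δ t)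
        refine LU1.VPos.mul' ?_ ?_
        · intro h1
          rw [hk _ (by rintro h2; exact h1 (by rw [h2, map_zero]))]
        · intro _
          rw [F.χ_val _ (hmem δ hδ').2]
          exact (hmem δ hδ').1
    exact this _ (Finset.Subset.refl _)
  have hcγ : algebraMap k Ω (c γ) ≠ 0 := by
    rw [Ne, map_eq_zero_iff _ (algebraMap k Ω).injective]
    exact (hs γ hγ).2.2
  have hu := LU1.val_add_vpos (v := v) hcγ (hk _ (hs γ hγ).2.2) hwpos
  have hafac : a = F.χ γ * (algebraMap k Ω (c γ) + w) := by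
    rw [hsa, ← Finset.add_sum_erase _ _ hγ, mul_add, mul_comm (F.χ γ)]
    congr 1
    simp only [w]
    rw [Finset.mul_sum]
    refine Finset.sum_congr rfl fun δ hδ => ?_
    rw [Finset.mem_erase] at hδ
    rw [F.chi_sub (hs δ hδ.2).1 hγΓ]
    field_simp [F.χ_ne γ hγΓ]
  refine ⟨γ, hγΓ, (algebraMap k Ω (c γ) + w) * b⁻¹, mul_mem (add_mem (F.R.algebraMap_mem _) hwR)
    hbR, mul_ne_zero hu.1 (inv_ne_zero hb0), ?_, ?_⟩
  · rw [v.map_mul hu.1 (inv_ne_zero hb0), hu.2, v.map_inv hb0, hvb]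
    simp
  · rw [hfab, hafac, div_eq_mul_inv]
    ring

/-- The ring of a rational frame without free parameters is the valuation ring. -/
theorem FR.Rat.mem_of_nonneg (hk : ∀ c : k, c ≠ 0 → v (algebraMap k Ω c) = 0) {F : FR k v 0}
    (hF : F.Rat) {K : IntermediateField k Ω} (hfrac : FracIs F.R K) {f : Ω} (hf : f ∈ K)
    (h0 : v.Ge 0 f) : f ∈ F.R := by
  by_cases hf0 : f = 0
  · rw [hf0]; exact F.R.zero_mem
  obtain ⟨a, ha, b, hb, hb0, hfab⟩ := hfrac.2 f hf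
  have ha0 : a ≠ 0 := by
    rintro rfl
    rw [zero_div] at hfab
    exact hf0 hfab
  obtain ⟨γ, hγ, u, hu, hu0, hvu, hau⟩ := hF.mono_zero hk ha ha0
  obtain ⟨δ, hδ, w, hw, hw0, hvw, hbw⟩ := hF.mono_zero hk hb hb0
  have h1 : f = F.χ (γ - δ) * (u * w⁻¹) := by
    rw [hfab, hau, hbw, F.chi_sub hγ hδ]
    field_simp
  have h2 : v f = γ - δ := by
    rw [hfab, v.map_div ha0 hb0, hau, hbw, v.map_mul (F.χ_ne γ hγ) hu0,
      v.map_mul (F.χ_ne δ hδ) hw0, F.χ_val γ hγ, F.χ_val δ hδ, hvu, hvw, add_zero, add_zero]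
  rw [h1]
  refine mul_mem (F.χ_mem _ (F.Γ.sub_mem hγ hδ) ?_) (mul_mem hu (F.loc w hw hw0 hvw))
  have h3 := h0 hf0
  rwa [h2] at h3

/-- Over a valuation ring the decomposition group of the centre is the decomposition group of the
valuation. -/
theorem decP_le_decG {F : FR k v D} {K : IntermediateField k Ω} (hfrac : FracIs F.R K)
    (hval : ∀ f ∈ K, v.Ge 0 f → f ∈ F.R) (N : IntermediateField K Ω) [FiniteDimensional K N] :
    decP v F.R K N ≤ decG v K N := by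
  classical
  intro σ hσ
  have hKN : K ≤ N.restrictScalars k := by
    intro x hx
    exact N.algebraMap_mem ⟨x, hx⟩
  have hint : ∀ a : Ω, IsIntegral F.R a → v.Ge 0 a := by
    intro a ha
    obtain ⟨P, hP, hPa⟩ := ha
    intro ha0
    by_contra hneg
    rw [not_le] at hneg
    -- `v (a^n) < v (c_i a^i)` for `i < n`
    have hn0 : P.natDegree ≠ 0 := by
      intro h
      have h1 : P = 1 := by
        have := eq_C_of_natDegree_eq_zero h
        rw [this] at hP ⊢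
        have h2 : P.coeff 0 = 1 := by
          have h3 := hP
          unfold Monic at h3
          rwa [leadingCoeff_C] at h3
        rw [h2, C_1]
      rw [h1] at hPa
      simp at hPa
    have h1 : eval₂ (algebraMap F.R Ω) a P = 0 := hPa
    rw [eval₂_eq_sum_range, Finset.sum_range_succ] at h1
    have h2 : P.coeff P.natDegree = 1 := hP
    rw [h2, map_one, one_mul] at h1
    have h3 : ∀ m, m ≤ P.natDegree → v.Ge ((P.natDegree - 1 : ℝ) * v a)
        (∑ i ∈ Finset.range m, algebraMap F.R Ω (P.coeff i) * a ^ i) := by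
      intro m hm
      induction m with
      | zero => simp only [Finset.range_zero, Finset.sum_empty]; exact RVal.Ge.zero
      | succ m ih =>
        rw [Finset.sum_range_succ]
        refine RVal.Ge.add (ih (by omega)) ?_
        intro hne
        have h4 : algebraMap F.R Ω (P.coeff m) ≠ 0 := left_ne_zero_of_mul hne
        have h5 : 0 ≤ v (algebraMap F.R Ω (P.coeff m)) := F.nonneg _ (P.coeff m).2 h4
        rw [v.map_mul h4 (pow_ne_zero _ ha0), v.map_pow ha0]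
        have h6 : (m : ℝ) ≤ P.natDegree - 1 := by
          have : (m : ℝ) + 1 ≤ P.natDegree := by exact_mod_cast hm
          linarith
        have h7 := mul_le_mul_of_nonpos_right h6 hneg.le
        linarith
    have h4 := h3 _ le_rfl
    have h5 : ∑ i ∈ Finset.range P.natDegree, algebraMap F.R Ω (P.coeff i) * a ^ i =
        -(a ^ P.natDegree) := eq_neg_of_add_eq_zero_left h1
    rw [h5] at h4
    have h6 := h4 (neg_ne_zero.2 (pow_ne_zero _ ha0))
    rw [v.map_neg _ (pow_ne_zero _ ha0), v.map_pow ha0] at h6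
    nlinarith
  -- nonnegative elements stay nonnegative
  have hpos : ∀ a : N, v.Ge 0 (a : Ω) → v.Ge 0 (σ a : Ω) := by
    intro a ha
    have halg : IsAlgebraic K (a : Ω) := by
      have : IsAlgebraic K a := Algebra.IsAlgebraic.isAlgebraic a
      exact (isAlgebraic_algHom_iff N.val Subtype.val_injective).2 this
    have h1 := mem_ICl_of_nonneg (R := F.R) hval hKN (E := N.restrictScalars k) a.2 halg ha
    obtain ⟨b, hb, c, hc, hc0, hvc, habc⟩ := LU1.mem_locv.1 h1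
    let b' : N := ⟨b, hb.1⟩
    let c' : N := ⟨c, hc.1⟩
    have h2 : a = b' / c' := Subtype.ext habc
    rw [h2, map_div₀]
    have hc'0 : c' ≠ 0 := fun h => hc0 (congrArg Subtype.val h)
    have hσc0 : (σ c' : Ω) ≠ 0 := by
      intro h
      have : σ c' = 0 := Subtype.ext h
      exact hc'0 ((map_eq_zero_iff σ σ.injective).1 this)
    have h3 := (hσ c' hc.2)
    have h4 : ¬ VPos v (c' : Ω) := fun h => by
      have := h hc0
      change 0 < v c at this
      rw [hvc] at this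
      exact lt_irrefl _ this
    have h5 : v (σ c' : Ω) = 0 := by
      have h6 : ¬ VPos v (σ c' : Ω) := fun h => h4 (h3.2.2.2 h)
      have h7 := hint _ h3.1 hσc0
      by_contra h8
      exact h6 fun _ => lt_of_le_of_ne h7 (Ne.symm h8)
    have h6 := hint _ (hσ b' hb.2).1
    intro hne
    have hσb0 : (σ b' : Ω) ≠ 0 := by
      intro h
      apply hne
      change ((σ b' / σ c' : N) : Ω) = 0
      have : σ b' = 0 := Subtype.ext h
      rw [this, zero_div]
      rfl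
    change 0 ≤ v ((σ b' : Ω) / (σ c' : Ω))
    rw [v.map_div hσb0 hσc0, h5, sub_zero]
    exact h6 hσb0
  intro a
  by_cases ha0 : a = 0
  · rw [ha0, map_zero]
  have haΩ : (a : Ω) ≠ 0 := fun h => ha0 (Subtype.ext h)
  obtain ⟨m, hm, hmΓ⟩ := F.full (a : Ω) haΩ
  have hχK : F.χ ((m : ℝ) * v (a : Ω)) ∈ K := by
    rcases le_total 0 ((m : ℝ) * v (a : Ω)) with h | h
    · exact hfrac.1 _ (F.χ_mem _ hmΓ h)
    · have h1 := hfrac.1 _ (F.χ_mem _ (F.Γ.neg_mem hmΓ) (neg_nonneg.2 h))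
      rw [F.chi_neg hmΓ] at h1
      have := inv_mem h1
      rwa [inv_inv] at this
  set γ := (m : ℝ) * v (a : Ω) with hγ
  let χ' : N := algebraMap K N ⟨F.χ γ, hχK⟩
  have hχ'Ω : (χ' : Ω) = F.χ γ := rfl
  have hχ0 : F.χ γ ≠ 0 := F.χ_ne γ hmΓ
  have hχ'0 : χ' ≠ 0 := fun h => hχ0 (by rw [← hχ'Ω, h]; rfl)
  have hσχ : σ χ' = χ' := σ.commutes _
  have hσa0 : (σ a : Ω) ≠ 0 := by
    intro h
    have : σ a = 0 := Subtype.ext h
    exact ha0 ((map_eq_zero_iff σ σ.injective).1 this)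
  have hσaN : ((σ a ^ m / χ' : N) : Ω) = (σ a : Ω) ^ m / F.χ γ := rfl
  have hv1 : v ((σ a : Ω) ^ m / F.χ γ) = m * v (σ a : Ω) - γ := by
    rw [v.map_div (pow_ne_zero _ hσa0) hχ0, v.map_pow hσa0, F.χ_val γ hmΓ]
  have h1 : 0 ≤ (m : ℝ) * v (σ a : Ω) - γ := by
    have h2 := hpos (a ^ m / χ') (by
      intro _
      change 0 ≤ v ((a : Ω) ^ m / F.χ γ)
      rw [v.map_div (pow_ne_zero _ haΩ) hχ0, v.map_pow haΩ, F.χ_val γ hmΓ]
      exact (sub_self _).ge)
    rw [map_div₀, map_pow, hσχ] at h2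
    have h3 := h2 (by
      rw [hσaN]
      exact div_ne_zero (pow_ne_zero _ hσa0) hχ0)
    rw [hσaN, hv1] at h3
    exact h3
  have h2 : 0 ≤ γ - (m : ℝ) * v (σ a : Ω) := by
    have h2 := hpos (χ' / a ^ m) (by
      intro _
      change 0 ≤ v (F.χ γ / (a : Ω) ^ m)
      rw [v.map_div hχ0 (pow_ne_zero _ haΩ), v.map_pow haΩ, F.χ_val γ hmΓ]
      exact (sub_self _).ge)
    rw [map_div₀, map_pow, hσχ] at h2
    have h4 : ((χ' / σ a ^ m : N) : Ω) = F.χ γ / (σ a : Ω) ^ m := rfl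
    have h3 := h2 (by
      rw [h4]
      exact div_ne_zero hχ0 (pow_ne_zero _ hσa0))
    rw [h4, v.map_div hχ0 (pow_ne_zero _ hσa0), v.map_pow hσa0, F.χ_val γ hmΓ] at h3
    exact h3
  have h3 : (m : ℝ) * v (σ a : Ω) = (m : ℝ) * v (a : Ω) := by
    rw [← hγ]; linarith
  have hm' : (m : ℝ) ≠ 0 := by exact_mod_cast hm.ne'
  exact mul_left_cancel₀ hm' h3

end Pool.Agent.ALL
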